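import Pool.Agent.H27.CAL.Stmts2

/-!
# Project CAL, module LOCS
-/

set_option autoImplicit false

open scoped BigOperators ENNReal Topology
open Filter

namespace CAL

section
variable {𝕜 : Type*} [RCLike 𝕜] {A : Type*} [PartialOrder A] {Y : Type*} [NormedAddCommGroup Y]
  [NormedSpace 𝕜 Y] {τ : TreeLev A}

theorem cal_locs (D : Dat 𝕜 Y τ) : LOCSStmt D := by
  intro z t w hz
  have hnz := norm_nonneg z
  have hx : ‖D.EX t z‖ ≤ 2 * ‖z‖ := D.norm_EX_le t z
  have hm0 := mm_inv_pos w
  have key : ∀ n, ∀ γ, D.lev γ ≤ n → D.wt γ = w →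
      ‖D.co γ (D.EX t z)‖ ≤ 6 * ‖z‖ * (mm w)⁻¹ := by
    intro n
    induction n with
    | zero => intro γ hγ; exact absurd (D.lev_pos γ) (by omega)
    | succ n ih =>
      intro γ hγ hw
      by_cases hle : D.lev γ ≤ t
      · rw [D.co_EX_le z hle, hz γ hle hw, norm_zero]
        positivity
      · rw [not_le] at hle
        have hev : ∀ p, ‖ev (D.b γ) (D.P p (toPt z))‖ ≤ 2 * ‖z‖ := by
          intro p
          have h1 := D.norm_evX_le (D.b γ) (D.EX p z)
          have h2 : D.evX (D.b γ) (D.EX p z) = ev (D.b γ) (D.P p (toPt z)) := rfl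
          rw [h2] at h1
          refine h1.trans ?_
          have h3 := D.b_norm γ
          have h4 := D.norm_EX_le p z
          have h5 := norm_nonneg (D.EX p z)
          calc nrm (D.b γ) * ‖D.EX p z‖ ≤ 1 * ‖D.EX p z‖ :=
                mul_le_mul_of_nonneg_right h3 h5
            _ ≤ 2 * ‖z‖ := by rw [one_mul]; exact h4
        have hco : ∀ β, D.co β (D.EX t z) = (D.P t (toPt z)).2 β := fun β => rfl
        rcases hp : D.pred γ with _ | ξ
        · rw [hco, D.P_none _ _ _ hle hp, norm_mul, norm_mi, hw]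
          have h1 := hev t
          have h2 := norm_nonneg (ev (D.b γ) (D.P t (toPt z)))
          nlinarith
        · have hξ := D.pred_lev γ ξ hp
          have hwξ : D.wt ξ = w := (D.pred_wt γ ξ hp).trans hw
          rw [hco, D.P_some _ _ _ _ hle hp]
          by_cases hpq : t ≤ D.lev ξ
          · rw [min_eq_left hpq, sub_self, mul_zero, add_zero]
            exact ih ξ (by omega) hwξ
          · rw [not_le] at hpq
            rw [D.P_le _ _ _ hpq.le, hz ξ hpq.le hwξ, zero_add, norm_mul, norm_mi, hw]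
            have h3 : ‖ev (D.b γ) (D.P t (toPt z)) -
                ev (D.b γ) (D.P (min t (D.lev ξ)) (toPt z))‖ ≤ 6 * ‖z‖ := by
              refine (norm_sub_le _ _).trans ?_
              have := hev t
              have := hev (min t (D.lev ξ))
              linarith
            calc (mm w)⁻¹ * ‖ev (D.b γ) (D.P t (toPt z)) -
                ev (D.b γ) (D.P (min t (D.lev ξ)) (toPt z))‖
                ≤ (mm w)⁻¹ * (6 * ‖z‖) := mul_le_mul_of_nonneg_left h3 hm0.le
              _ = 6 * ‖z‖ * (mm w)⁻¹ := by ring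
  exact fun γ hγ => key _ γ le_rfl hγ

end

end CAL
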