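import Pool.Agent.H27.CAL.Stmts2

/-!
# Project CAL, module OPER
-/

set_option autoImplicit false

open scoped BigOperators ENNReal Topology
open Filter

namespace CAL

section
variable {𝕜 : Type*} [RCLike 𝕜] {A : Type*} [PartialOrder A] {Y : Type*} [NormedAddCommGroup Y]
  [NormedSpace 𝕜 Y] {τ : TreeLev A}

theorem cal_oper (D : Dat 𝕜 Y τ) (hS : SCALStmt D) (hC : CRITStmt D D.X)
    (hT : TAILSStmt D D.X) : OPERStmt D := by
  intro Ch F w R hPT T
  obtain ⟨c, hc⟩ := hS F w R hPT T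
  refine ⟨c, fun e he => ?_⟩
  set S : D.X →L[𝕜] D.X := T - c • ContinuousLinearMap.id 𝕜 D.X with hSdef
  have hSa : ∀ x, S x = T x - c • x := fun x => rfl
  have hris : ∀ x, D.RIS x → ∀ φ : ℕ → ℕ, StrictMono φ →
      Tendsto (fun k => (fun _ : ℕ => S) (φ k) (x k)) atTop (𝓝 0) := by
    intro x hx φ _
    exact hc x hx
  have hbl := hC (fun _ => S) ‖S‖ (fun k x => S.le_opNorm x) hris
  obtain ⟨N, hN⟩ := hT (fun _ => S) ‖S‖ (fun k x => S.le_opNorm x)
    (fun x s t hx φ _ => hbl x s t hx) e he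
  refine ⟨N, fun n hn x => ?_⟩
  have h := hN n hn N le_rfl x
  rw [← hSa]
  exact h

end

end CAL
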